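import Pool.Agent.H20.Maj

namespace Pool.Agent.Results.MP_232fda_co.Mixed
open Pool.Agent.H20

theorem result : ∃ G : SimpleGraph (Fin 26),
    (∀ e ∈ G.edgeSet, majNum (G.deleteEdges {e}) ≠ majNum G) ∧
    ∃ e ∈ G.edgeSet, ∃ f ∈ G.edgeSet, e ≠ f ∧
      majNum (G.deleteEdges {e}) < majNum G ∧ majNum G < majNum (G.deleteEdges {f}) := by
  refine ⟨Maj.G, Maj.crit, s(6, 8), ?_, s(0, 1), ?_, by decide, ?_, Maj.hi01⟩
  · show Maj.adjB 6 8 = true
    decide +kernel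
  · show Maj.adjB 0 1 = true
    decide +kernel
  · rw [Maj.mG]; exact Maj.lo68

end Pool.Agent.Results.MP_232fda_co.Mixed
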